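import Pool.Agent.H91.RF.TargetsR

/-!
# rf_modules CNM: cone monotonicity at a ratio
-/

open MeasureTheory Set Filter Topology Metric
open Pool.Agent.H91.RD Pool.Agent.H91.RF

namespace Pool.Agent.H59.RF

variable {N : ℕ}

theorem ndir_mono {U : Set (E N)} {η ρ : ℝ} {x e : E N} (h : NDir U η x e) (hη : η ≤ ρ) :
    NDir U ρ x e := by
  obtain ⟨h1, ξ, e0, h2, h3⟩ := h
  exact ⟨h1, ξ, e0, h2, h3.trans hη⟩

/-- a directional derivative in the cone -/
theorem cone_deriv {C0 ka : ℝ} (hC0 : 1 ≤ C0) (hka0 : 0 < ka) (hka : ka ^ 2 * (1 + C0 ^ 2) = C0 ^ 2)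
    {L : E N →L[ℝ] ℝ} {e h : E N} (he : ‖e‖ = 1) (hp : 0 < -L e) (hL : ‖L‖ ≤ C0 * -L e)
    (hh : ka * ‖h‖ ≤ inner ℝ h e) : 0 ≤ L (-h) := by
  set α : ℝ := inner ℝ h e with hα
  have hα0 : 0 ≤ α := (mul_nonneg hka0.le (norm_nonneg h)).trans hh
  set h' : E N := h - α • e with hh'
  have e1 : h = α • e + h' := by rw [hh']; abel
  have e2 : ‖h'‖ ^ 2 = ‖h‖ ^ 2 - α ^ 2 := by
    rw [hh', norm_sub_sq_real, norm_smul, he, inner_smul_right, ← hα, Real.norm_eq_abs, mul_one,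
      sq_abs]
    ring
  have e3 : L (-h) = α * -L e - L h' := by
    rw [map_neg]
    conv_lhs => rw [e1]
    rw [map_add, map_smul, smul_eq_mul]
    ring
  have e4 : L h' ≤ ‖L‖ * ‖h'‖ := (le_abs_self _).trans (L.le_opNorm h')
  have e5 : C0 * ‖h'‖ ≤ α := by
    refine abs_le_of_sq_le_sq' ?_ hα0 |>.2
    rw [mul_pow, e2]
    have h1 : (ka * ‖h‖) ^ 2 ≤ α ^ 2 := pow_le_pow_left₀ (mul_nonneg hka0.le (norm_nonneg h)) hh 2
    rw [mul_pow] at h1
    have h2 : 0 < 1 + C0 ^ 2 := by positivity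
    have h3 : ka ^ 2 * ‖h‖ ^ 2 * (1 + C0 ^ 2) ≤ α ^ 2 * (1 + C0 ^ 2) :=
      mul_le_mul_of_nonneg_right h1 h2.le
    have h4 : ka ^ 2 * ‖h‖ ^ 2 * (1 + C0 ^ 2) = C0 ^ 2 * ‖h‖ ^ 2 := by
      rw [mul_right_comm, hka]
    nlinarith
  have e6 : ‖L‖ * ‖h'‖ ≤ C0 * -L e * ‖h'‖ := mul_le_mul_of_nonneg_right hL (norm_nonneg _)
  have e7 : C0 * -L e * ‖h'‖ ≤ α * -L e := by
    have := mul_le_mul_of_nonneg_right e5 hp.le
    linarith [this]
  rw [e3]
  linarith

theorem pf_CNM (hG : T_GEOK) : T_CNM := by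
  intro N f K cc C0 C9 η0 U u hS hcc hF
  have hC0 := hF.hC0
  have hη0 := hF.hη0
  have hC2 : 0 < 1 + C0 ^ 2 := by positivity
  set ka : ℝ := √(C0 ^ 2 / (1 + C0 ^ 2)) with hka
  have hka2 : ka ^ 2 = C0 ^ 2 / (1 + C0 ^ 2) := Real.sq_sqrt (by positivity)
  have hka3 : ka ^ 2 * (1 + C0 ^ 2) = C0 ^ 2 := by rw [hka2]; field_simp
  have hka0 : 0 < ka := Real.sqrt_pos.2 (by positivity)
  have hka1 : ka < 1 := by
    have h1 : ka ^ 2 < 1 ^ 2 := by
      rw [hka2, one_pow, div_lt_one hC2]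
      linarith
    exact lt_of_pow_lt_pow_left₀ 2 zero_le_one h1
  refine ⟨ka, hka0, hka1, ?_⟩
  obtain ⟨ρ, hρ, T1, hT1, hgeo⟩ := hG N U (cc / 2) hS.condC hS.ne (by linarith) η0 hη0
  obtain ⟨T2, hT2, hpos⟩ := hF.pos
  set η : ℝ := min (min ρ (cc / 2)) (η0 / 2) with hη
  have hηρ : η ≤ ρ := (min_le_left _ _).trans (min_le_left _ _)
  have hηc : η ≤ cc / 2 := (min_le_left _ _).trans (min_le_right _ _)
  have hη2 : η ≤ η0 / 2 := min_le_right _ _
  have hηp : 0 < η := lt_min (lt_min hρ (by linarith)) (by linarith)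
  refine ⟨η, hηp, max T1 T2, lt_max_of_lt_left hT1, fun t ht x e hd hx y hy hc => ?_⟩
  have ht1 : T1 ≤ t := (le_max_left _ _).trans ht
  have ht2 : T2 ≤ t := (le_max_right _ _).trans ht
  have ht0 : 0 < t := hT1.trans_le ht1
  have hx' := abs_le.1 hx
  have hηt : η * t ≤ cc / 2 * t := mul_le_mul_of_nonneg_right hηc ht0.le
  have hηt2 : η * t ≤ η0 / 2 * t := mul_le_mul_of_nonneg_right hη2 ht0.le
  have hηt3 : η * t ≤ ρ * t := mul_le_mul_of_nonneg_right hηρ ht0.le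
  -- the points of the segment
  have hseg : ∀ z, dist z x ≤ η * t → 0 < -dx u e t z ∧ gr u t z ≤ C0 * -dx u e t z := by
    intro z hz
    have h1 := hgeo t ht1 x e (ndir_mono hd hηρ) (by linarith [hx'.1]) z (hz.trans hηt3)
    refine hpos t ht2 z e h1 ?_
    have h2 : |infDist z U - infDist x U| ≤ dist z x := by
      have := (lipschitz_infDist_pt U).dist_le_mul z x
      rwa [Real.dist_eq, NNReal.coe_one, one_mul] at this
    have h3 := abs_le.1 h2
    rw [abs_le]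
    constructor <;> linarith [hx'.1, hx'.2]
  have hdiff : Differentiable ℝ (u t) := (hS.sol.sol.c2 t ht0).differentiable (by norm_num)
  -- monotonicity along the segment
  set g : ℝ → ℝ := fun s => u t (x + s • (y - x)) with hg
  have hgd : ∀ s, HasDerivAt g (fderiv ℝ (u t) (x + s • (y - x)) (y - x)) s := by
    intro s
    have h1 : HasDerivAt (fun s : ℝ => x + s • (y - x)) (y - x) s := by
      simpa using ((hasDerivAt_id' s).smul_const (y - x)).const_add x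
    exact (hdiff _).hasFDerivAt.comp_hasDerivAt s h1
  have hmono : MonotoneOn g (Icc 0 1) := by
    refine monotoneOn_of_deriv_nonneg (convex_Icc 0 1)
      (fun s _ => (hgd s).continuousAt.continuousWithinAt)
      (fun s _ => (hgd s).differentiableAt.differentiableWithinAt) fun s hs => ?_
    rw [interior_Icc] at hs
    rw [(hgd s).deriv]
    have hz : dist (x + s • (y - x)) x ≤ η * t := by
      rw [dist_eq_norm, add_sub_cancel_left, norm_smul, Real.norm_of_nonneg hs.1.le]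
      rw [dist_eq_norm] at hy
      nlinarith [norm_nonneg (y - x), hs.2]
    obtain ⟨h1, h2⟩ := hseg _ hz
    have h3 := cone_deriv (h := x - y) hC0 hka0 hka3 hd.1 h1 h2 hc
    rwa [neg_sub] at h3
  have h0 : g 0 = u t x := by simp [hg]
  have h1 : g 1 = u t y := by simp [hg]
  rw [← h0, ← h1]
  exact hmono (left_mem_Icc.2 zero_le_one) (right_mem_Icc.2 zero_le_one) zero_le_one

end Pool.Agent.H59.RF
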