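import Pool.Agent.H91.RF.TargetsR
import Pool.Agent.H41.RF.KBD
import Pool.Agent.H91.RD.Basic

/-!
# rf_modules DEP: continuous dependence of mild solutions on the datum
-/

open MeasureTheory Set Filter Topology Metric
open Pool.Agent.H29.TF (hk P hk_pos hk_nonneg integrable_hk_sub integral_hk_sub)
open Pool.Agent.H91.RD Pool.Agent.H91.RF
open Pool.Agent.H41.RF.KGR

namespace Pool.Agent.H59.RF

variable {N : ℕ}

/-- a function which is continuous for positive times, cut off, is measurable -/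
theorem meas_cut {w : ℝ → E N → ℝ}
    (hw : ContinuousOn (fun p : ℝ × E N => w p.1 p.2) (Ioi 0 ×ˢ univ)) :
    Measurable (fun p : ℝ × E N => if 0 < p.1 then w p.1 p.2 else 0) := by
  classical
  have hs : MeasurableSet (Ioi (0 : ℝ) ×ˢ (univ : Set (E N))) :=
    measurableSet_Ioi.prod MeasurableSet.univ
  have h := ContinuousOn.measurable_piecewise (g := fun _ : ℝ × E N => (0 : ℝ)) hw
    continuousOn_const hs
  convert h using 1
  funext p
  simp [Set.piecewise]

theorem dom_w {f : ℝ → ℝ} {b : ℝ} {w : ℝ → E N → ℝ} (hw : Mild f 0 w) (hr : Rng 0 w) :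
    Dom 0 b (fun (_ : ℝ) (_ : E N) => (1 : ℝ)) w where
  rep := rep_const 0 1 zero_le_one
  meas := meas_cut hw.cont
  le r hr0 _ x := by
    have := hr r hr0.le x
    rw [abs_le]; constructor <;> linarith

theorem dom_f {f : ℝ → ℝ} {K b : ℝ} (hf : Lip f K) {w : ℝ → E N → ℝ} (hw : Mild f 0 w)
    (hr : Rng 0 w) :
    Dom 0 b (fun (_ : ℝ) (_ : E N) => K) (fun t x => f (w t x)) where
  rep := rep_const 0 K hf.K0.le
  meas := meas_cut (w := fun t x => f (w t x)) (hf.continuous.comp_continuousOn hw.cont)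
  le r hr0 _ x := by
    have h1 := hr r hr0.le x
    have h2 := hf.abs_le (w r x)
    have h3 : |w r x| ≤ 1 := by rw [abs_le]; constructor <;> linarith
    nlinarith [hf.K0]

/-- the basic inequality for the difference of two solutions -/
theorem diff_le {f : ℝ → ℝ} {K : ℝ} (hf : Lip f K) {w v : ℝ → E N → ℝ} (hw : Mild f 0 w)
    (hwr : Rng 0 w) (hv : Mild f 0 v) (hvr : Rng 0 v) {t : ℝ} (ht : 0 < t) (x : E N) :
    |w t x - v t x| ≤ |P t (w 0) x - P t (v 0) x| +
      K * ∫ q in (0:ℝ)..t, ∫ z, hk (t - q) (x - z) * |w q z - v q z| := by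
  have e1 := hw.duh 0 t le_rfl ht x
  have e2 := hv.duh 0 t le_rfl ht x
  rw [sub_zero] at e1 e2
  have hfw := dom_f (b := t) hf hw hwr
  have hfv := dom_f (b := t) hf hv hvr
  have h1 := hfw.duh_sub hfv ht.le le_rfl x
  have h2 := (hfw.sub hfv).duh_abs_le ((dom_w (b := t) hw hwr).sub (dom_w (b := t) hv hvr)) (c := K)
    ht.le le_rfl (fun q _ _ z => hf.lip _ _) x
  have e3 : w t x - v t x = (P t (w 0) x - P t (v 0) x) +
      ∫ q in (0:ℝ)..t, ∫ z, hk (t - q) (x - z) * (f (w q z) - f (v q z)) := by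
    rw [h1, e1, e2]
    unfold P
    ring
  rw [e3]
  exact (abs_add_le _ _).trans (by linarith [h2])

theorem pf_DEP : T_DEP := by
  intro N f K w v hf hw hv hvr hP
  -- the differences
  set D : ℕ → ℝ → E N → ℝ := fun n t x => if 0 < t then |w n t x - v t x| else 0 with hD
  have hDpos : ∀ n t x, 0 < t → D n t x = |w n t x - v t x| := fun n t x ht => by
    simp only [hD, if_pos ht]
  have hD0 : ∀ n t x, 0 ≤ D n t x := by
    intro n t x
    simp only [hD]
    split_ifs
    · exact abs_nonneg _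
    · exact le_rfl
  have hD1 : ∀ n t x, D n t x ≤ 1 := by
    intro n t x
    simp only [hD]
    split_ifs with ht
    · have h1 := (hw n).2 t ht.le x
      have h2 := hvr t ht.le x
      rw [abs_le]; constructor <;> linarith
    · exact zero_le_one
  have hDm : ∀ n, Measurable (fun p : ℝ × E N => D n p.1 p.2) := by
    intro n
    have h1 : ContinuousOn (fun p : ℝ × E N => (fun t x => |w n t x - v t x|) p.1 p.2)
        (Ioi 0 ×ˢ univ) := ((hw n).1.cont.sub hv.cont).abs
    exact meas_cut (w := fun t x => |w n t x - v t x|) h1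
  -- the suprema
  set S : ℕ → ℝ → E N → ℝ := fun m t x => ⨆ n, D (m + n) t x with hS
  have hbd : ∀ m t x, BddAbove (range fun n => D (m + n) t x) := by
    intro m t x
    exact ⟨1, by rintro _ ⟨n, rfl⟩; exact hD1 _ _ _⟩
  have hDS : ∀ m n t x, D (m + n) t x ≤ S m t x := fun m n t x => le_ciSup (hbd m t x) n
  have hS0 : ∀ m t x, 0 ≤ S m t x := fun m t x => (hD0 (m + 0) t x).trans (hDS m 0 t x)
  have hS1 : ∀ m t x, S m t x ≤ 1 := fun m t x => ciSup_le fun n => hD1 _ _ _
  have hSm : ∀ m, Measurable (fun p : ℝ × E N => S m p.1 p.2) := fun m =>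
    Measurable.iSup fun n => hDm (m + n)
  have hSa : ∀ t x, Antitone fun m => S m t x := by
    intro t x
    refine antitone_nat_of_succ_le fun m => ?_
    refine ciSup_le fun n => ?_
    have : m + 1 + n = m + (n + 1) := by omega
    rw [this]
    exact hDS m (n + 1) t x
  -- the limit
  set L : ℝ → E N → ℝ := fun t x => ⨅ m, S m t x with hL
  have hbb : ∀ t x, BddBelow (range fun m => S m t x) := by
    intro t x
    exact ⟨0, by rintro _ ⟨n, rfl⟩; exact hS0 _ _ _⟩
  have hSL : ∀ t x, Tendsto (fun m => S m t x) atTop (𝓝 (L t x)) := fun t x =>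
    tendsto_atTop_ciInf (hSa t x) (hbb t x)
  have hL0 : ∀ t x, 0 ≤ L t x := fun t x => le_ciInf fun m => hS0 m t x
  have hL1 : ∀ t x, L t x ≤ 1 := fun t x => (ciInf_le (hbb t x) 0).trans (hS1 0 t x)
  have hLm : Measurable (fun p : ℝ × E N => L p.1 p.2) := Measurable.iInf fun m => hSm m
  have domS : ∀ m b, Dom 0 b (fun (_ : ℝ) (_ : E N) => (1 : ℝ)) (S m) := fun m b =>
    { rep := rep_const 0 1 zero_le_one
      meas := (hSm m).ite (measurableSet_lt measurable_const measurable_fst) measurable_const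
      le := fun r _ _ x => by rw [abs_of_nonneg (hS0 m r x)]; exact hS1 m r x }
  have domL : ∀ b, Dom 0 b (fun (_ : ℝ) (_ : E N) => (1 : ℝ)) L := fun b =>
    { rep := rep_const 0 1 zero_le_one
      meas := hLm.ite (measurableSet_lt measurable_const measurable_fst) measurable_const
      le := fun r _ _ x => by rw [abs_of_nonneg (hL0 r x)]; exact hL1 r x }
  -- the inequality with `S m`
  have key : ∀ m t, 0 < t → ∀ x, L t x ≤ K * ∫ p, hk (t - p.1) (x - p.2) * S m p.1 p.2 ∂(mu N 0 t) := by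
    intro m t ht x
    refine le_of_forall_pos_le_add fun ε hε => ?_
    have hA := hP t ht x
    rw [Metric.tendsto_atTop] at hA
    obtain ⟨n0, hn0⟩ := hA ε hε
    have h1 : ∀ n, D (m + n0 + n) t x ≤
        K * (∫ p, hk (t - p.1) (x - p.2) * S m p.1 p.2 ∂(mu N 0 t)) + ε := by
      intro n
      rw [hDpos _ t x ht]
      refine (diff_le hf (hw _).1 (hw _).2 hv hvr ht x).trans ?_
      have h2 := hn0 (m + n0 + n) (by omega)
      rw [Real.dist_eq] at h2
      have hdn := ((dom_w (b := t) (hw (m + n0 + n)).1 (hw (m + n0 + n)).2).sub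
        (dom_w (b := t) hv hvr)).abs
      have h3 : ∫ q in (0:ℝ)..t, ∫ z, hk (t - q) (x - z) * |w (m + n0 + n) q z - v q z| ≤
          ∫ p, hk (t - p.1) (x - p.2) * S m p.1 p.2 ∂(mu N 0 t) := by
        rw [hdn.eq_prod ht.le le_rfl le_rfl x]
        refine integral_mono_ae (hdn.int le_rfl le_rfl x) ((domS m t).int le_rfl le_rfl x) ?_
        filter_upwards [ae_mu (N := N) 0 t] with p hp
        refine mul_le_mul_of_nonneg_left ?_ (hk_nonneg (by linarith [hp.2]) _)
        rw [← hDpos _ _ _ hp.1, add_assoc]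
        exact hDS m (n0 + n) p.1 p.2
      have h4 := mul_le_mul_of_nonneg_left h3 hf.K0.le
      linarith
    exact (ciInf_le (hbb t x) (m + n0)).trans (ciSup_le h1)
  -- passage to the limit
  have keyL : ∀ t, 0 < t → ∀ x, L t x ≤ K * ∫ q in (0:ℝ)..t, ∫ z, hk (t - q) (x - z) * |L q z| := by
    intro t ht x
    have e1 : ∀ q z, |L q z| = L q z := fun q z => abs_of_nonneg (hL0 q z)
    simp_rw [e1]
    rw [(domL t).eq_prod ht.le le_rfl le_rfl x]
    have hlim : Tendsto (fun m => ∫ p, hk (t - p.1) (x - p.2) * S m p.1 p.2 ∂(mu N 0 t)) atTop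
        (𝓝 (∫ p, hk (t - p.1) (x - p.2) * L p.1 p.2 ∂(mu N 0 t))) := by
      have h1 : Dom 0 t (fun (_ : ℝ) (_ : E N) => (1 : ℝ)) (fun (_ : ℝ) (_ : E N) => (1 : ℝ)) :=
        { rep := rep_const 0 1 zero_le_one
          meas := (measurable_const (a := (1:ℝ))).ite
            (measurableSet_lt measurable_const measurable_fst) measurable_const
          le := fun r _ _ x => by rw [abs_one] }
      refine tendsto_integral_of_dominated_convergence
        (fun p => hk (t - p.1) (x - p.2) * 1) (fun m => (domS m t).aesm x t)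
        (h1.int le_rfl le_rfl x) (fun m => ?_) ?_
      · filter_upwards [ae_mu (N := N) 0 t] with p hp
        rw [norm_mul, Real.norm_of_nonneg (hk_nonneg (by linarith [hp.2]) _),
          Real.norm_of_nonneg (hS0 m _ _)]
        exact mul_le_mul_of_nonneg_left (hS1 m _ _) (hk_nonneg (by linarith [hp.2]) _)
      · exact Filter.Eventually.of_forall fun p => (hSL p.1 p.2).const_mul _
    exact ge_of_tendsto' (hlim.const_mul K) fun m => key m t ht x
  have hL00 : ∀ t, 0 < t → ∀ x, L t x = 0 := by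
    intro t ht x
    refine pf_KGR N K 0 t L hf.K0.le (domL t).meas (fun r hr _ z => ?_)
      (Or.inl ⟨1, fun r _ _ z => by rw [abs_of_nonneg (hL0 r z)]; exact hL1 r z⟩) t ht le_rfl x
    rw [abs_of_nonneg (hL0 r z)]
    exact keyL r hr z
  intro t ht x
  rw [tendsto_iff_dist_tendsto_zero]
  have h1 := hSL t x
  rw [hL00 t ht x] at h1
  refine squeeze_zero (fun n => dist_nonneg) (fun n => ?_) h1
  have h2 := hDS n 0 t x
  rw [add_zero, hDpos n t x ht] at h2
  rw [Real.dist_eq]
  exact h2

end Pool.Agent.H59.RF
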